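import Pool.Agent.Q23.RC.Stm

set_option autoImplicit false
set_option linter.unusedSectionVars false

/-!
# Project RC (helper23), job FH (helper123): copy of `fhone` of `Pool/Agent/Q169/PT/Deg.lean` with complex coefficients
-/

namespace Pool.Agent.Q123.RC

open scoped Matrix
open Pool.Agent.Q23.RC
open Pool.Agent.Q169.PT (Rep IsCoc Van1)

noncomputable section

/-- the augmentation of the truncated resolution -/
def eps {G : Type} [Group G] (X : Pool.Agent.Q23.RC.Part G) (x : Fin X.n0 → MonoidAlgebra ℂ G) : ℂ :=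
  ∑ j, augC G (x j) * X.aug j

section eps

variable {G : Type} [Group G] (X : Pool.Agent.Q23.RC.Part G)

lemma augC_single (g : G) (r : ℂ) : augC G (MonoidAlgebra.single g r) = r := by
  simp [augC]

lemma eps_add (x y : Fin X.n0 → MonoidAlgebra ℂ G) : eps X (x + y) = eps X x + eps X y := by
  simp [eps, Finset.sum_add_distrib, add_mul]

lemma eps_neg (x : Fin X.n0 → MonoidAlgebra ℂ G) : eps X (-x) = - eps X x := by
  simp [eps, Finset.sum_neg_distrib]

lemma eps_sub (x y : Fin X.n0 → MonoidAlgebra ℂ G) : eps X (x - y) = eps X x - eps X y := by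
  rw [sub_eq_add_neg, eps_add, eps_neg, sub_eq_add_neg]

lemma eps_smul (a : MonoidAlgebra ℂ G) (x : Fin X.n0 → MonoidAlgebra ℂ G) :
    eps X (a • x) = augC G a * eps X x := by
  simp [eps, Finset.mul_sum, mul_assoc]

lemma eps_csmul (a : ℂ) (x : Fin X.n0 → MonoidAlgebra ℂ G) : eps X (a • x) = a * eps X x := by
  simp [eps, Finset.mul_sum, mul_assoc]

lemma eps_single (j : Fin X.n0) : eps X (Pi.single j 1) = X.aug j := by
  rw [eps, Finset.sum_eq_single j]
  · simp
  · intro i _ hi; simp [Pi.single_eq_of_ne hi]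
  · simp

lemma eps_d (y : Fin X.n1 → MonoidAlgebra ℂ G) : eps X (y ᵥ* X.d1) = 0 :=
  (X.exact_zero _).2 ⟨y, rfl⟩

lemma exists_lift (x : Fin X.n0 → MonoidAlgebra ℂ G) (h : eps X x = 0) : ∃ y, y ᵥ* X.d1 = x :=
  (X.exact_zero _).1 h

end eps

variable {G H : Type} [Group G] [NormedAddCommGroup H] [InnerProductSpace ℂ H]

/-- pairing of a chain with a cochain -/
def pw (π : Rep G H) {n : ℕ} (x : Fin n → MonoidAlgebra ℂ G) (v : Fin n → H) : H :=
  ∑ j, alC π (x j) (v j)

variable (π : Rep G H)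

lemma alC_single (g : G) (r : ℂ) : alC π (MonoidAlgebra.single g r) = r • π.hom g := by
  simp [alC]

lemma pw_add {n : ℕ} (x y : Fin n → MonoidAlgebra ℂ G) (v : Fin n → H) :
    pw π (x + y) v = pw π x v + pw π y v := by
  simp [pw, Finset.sum_add_distrib]

lemma pw_zero {n : ℕ} (v : Fin n → H) : pw π (0 : Fin n → MonoidAlgebra ℂ G) v = 0 := by
  simp [pw]

lemma pw_neg {n : ℕ} (x : Fin n → MonoidAlgebra ℂ G) (v : Fin n → H) :
    pw π (-x) v = - pw π x v := by
  simp [pw, Finset.sum_neg_distrib]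

lemma pw_sub {n : ℕ} (x y : Fin n → MonoidAlgebra ℂ G) (v : Fin n → H) :
    pw π (x - y) v = pw π x v - pw π y v := by
  rw [sub_eq_add_neg, pw_add, pw_neg, sub_eq_add_neg]

lemma pw_smul {n : ℕ} (a : MonoidAlgebra ℂ G) (x : Fin n → MonoidAlgebra ℂ G) (v : Fin n → H) :
    pw π (a • x) v = alC π a (pw π x v) := by
  simp [pw, map_sum]

lemma pw_csmul {n : ℕ} (r : ℂ) (x : Fin n → MonoidAlgebra ℂ G) (v : Fin n → H) :
    pw π (r • x) v = r • pw π x v := by
  simp [pw, Finset.smul_sum]

lemma pw_vecMul {a b : ℕ} (M : Matrix (Fin a) (Fin b) (MonoidAlgebra ℂ G))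
    (x : Fin a → MonoidAlgebra ℂ G) (v : Fin b → H) : pw π (x ᵥ* M) v = pw π x (mo π M v) := by
  simp only [pw, mo, Matrix.vecMul, dotProduct, map_sum, map_mul,
    sum_apply, mul_apply_eq_comp]
  rw [Finset.sum_comm]

lemma pw_single {n : ℕ} (j : Fin n) (v : Fin n → H) :
    pw π (Pi.single j 1) v = v j := by
  rw [pw, Finset.sum_eq_single j]
  · simp
  · intro i _ hi; simp [Pi.single_eq_of_ne hi]
  · simp

/-- JOB FH -/
theorem fh : S_fh := by
  intro G H _ _ _ X π hV v hv
  have hwd : ∀ y y' : Fin X.n1 → MonoidAlgebra ℂ G, y ᵥ* X.d1 = y' ᵥ* X.d1 →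
      pw π y v = pw π y' v := by
    intro y y' h
    have h1 : (y - y') ᵥ* X.d1 = 0 := by rw [Matrix.sub_vecMul, h, sub_self]
    obtain ⟨u, hu⟩ := (X.exact_one _).1 h1
    have h2 : pw π (y - y') v = 0 := by
      rw [← hu, pw_vecMul, hv]
      simp [pw]
    rw [pw_sub, sub_eq_zero] at h2
    exact h2
  obtain ⟨x0, hx0⟩ := X.surj
  change eps X x0 = 1 at hx0
  have hγ : ∀ g : G, ∃ y, y ᵥ* X.d1 = (MonoidAlgebra.single g 1 : MonoidAlgebra ℂ G) • x0 - x0 := by
    intro g
    apply exists_lift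
    rw [eps_sub, eps_smul, augC_single, hx0]; norm_num
  choose γ hγ using hγ
  obtain ⟨w₀, hw₀⟩ := hV (fun g => pw π (γ g) v) (by
    intro g h
    have h1 : pw π (γ (g * h)) v =
        pw π (γ g + (MonoidAlgebra.single g 1 : MonoidAlgebra ℂ G) • γ h) v := by
      apply hwd
      rw [Matrix.add_vecMul, Matrix.smul_vecMul, hγ, hγ, hγ, smul_sub, smul_smul,
        MonoidAlgebra.single_mul_single, one_mul]
      abel
    change pw π (γ (g * h)) v = pw π (γ g) v + π.hom g (pw π (γ h) v)
    rw [h1, pw_add, pw_smul, alC_single, one_smul])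
  have hζ : ∀ j : Fin X.n0, ∃ y, y ᵥ* X.d1 = Pi.single j 1 - X.aug j • x0 := by
    intro j
    apply exists_lift
    rw [eps_sub, eps_single, eps_csmul, hx0]; ring
  choose ζ hζ using hζ
  let w : Fin X.n0 → H := fun j => pw π (ζ j) v + X.aug j • w₀
  let K : Submodule ℂ (Fin X.n0 → MonoidAlgebra ℂ G) :=
    { carrier := {x | ∃ y, y ᵥ* X.d1 = x - eps X x • x0 ∧ pw π x w = pw π y v + eps X x • w₀}
      zero_mem' := by
        have e0 : eps X 0 = 0 := by
          have := eps_sub X 0 0
          rwa [sub_self, sub_self] at this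
        refine ⟨0, ?_, ?_⟩
        · rw [e0, zero_smul, sub_zero, Matrix.zero_vecMul]
        · rw [e0, zero_smul, pw_zero, pw_zero, add_zero]
      add_mem' := by
        rintro x x' ⟨y, h1, h2⟩ ⟨y', h1', h2'⟩
        refine ⟨y + y', ?_, ?_⟩
        · rw [Matrix.add_vecMul, h1, h1', eps_add, add_smul]
          abel
        · rw [pw_add, h2, h2', pw_add, eps_add, add_smul]
          abel
      smul_mem' := by
        rintro r x ⟨y, h1, h2⟩
        refine ⟨r • y, ?_, ?_⟩
        · rw [Matrix.smul_vecMul, h1, eps_csmul, smul_sub, smul_smul]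
        · rw [pw_csmul, h2, pw_csmul, eps_csmul, smul_add, smul_smul] }
  have hK : ∀ (j : Fin X.n0) (a : MonoidAlgebra ℂ G), Pi.single j a ∈ K := by
    intro j a
    induction a using MonoidAlgebra.induction_linear with
    | zero => rw [Pi.single_zero]; exact K.zero_mem
    | add a b ha hb => rw [Pi.single_add]; exact K.add_mem ha hb
    | single g r =>
      have e2 : (MonoidAlgebra.single g r : MonoidAlgebra ℂ G) =
          r • (MonoidAlgebra.single g 1 : MonoidAlgebra ℂ G) := by
        rw [MonoidAlgebra.smul_single, smul_eq_mul, mul_one]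
      have e1 : (Pi.single j (MonoidAlgebra.single g r) : Fin X.n0 → MonoidAlgebra ℂ G) =
          r • ((MonoidAlgebra.single g 1 : MonoidAlgebra ℂ G) • Pi.single j 1) := by
        rw [← Pi.single_smul, smul_eq_mul, mul_one, ← Pi.single_smul, e2]
      rw [e1]
      refine K.smul_mem r ?_
      refine ⟨(MonoidAlgebra.single g 1 : MonoidAlgebra ℂ G) • ζ j + X.aug j • γ g, ?_, ?_⟩
      · rw [Matrix.add_vecMul, Matrix.smul_vecMul, Matrix.smul_vecMul, hζ, hγ,
          eps_smul, augC_single, eps_single, one_mul]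
        rw [smul_sub, smul_comm (MonoidAlgebra.single g 1 : MonoidAlgebra ℂ G) (X.aug j) x0,
          smul_sub (X.aug j)]
        abel
      · have h3 : pw π (Pi.single j 1) w = pw π (ζ j) v + X.aug j • w₀ := pw_single π j w
        have h5 : pw π (γ g) v = π.hom g w₀ - w₀ := hw₀ g
        rw [pw_smul, alC_single, h3, pw_add, pw_smul, alC_single, pw_csmul, h5, eps_smul, augC_single,
          eps_single, one_smul, one_mul, map_add, map_smul]
        module
  have hall : ∀ x, x ∈ K := by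
    intro x
    rw [← Finset.univ_sum_single x]
    exact K.sum_mem fun j _ => hK j _
  refine ⟨w, ?_⟩
  funext k
  obtain ⟨y, h1, h2⟩ := hall (X.d1 k)
  have e0 : (Pi.single k 1 : Fin X.n1 → MonoidAlgebra ℂ G) ᵥ* X.d1 = X.d1 k := by
    funext j; simp [Matrix.vecMul, dotProduct, Pi.single_apply]
  have e1 : eps X (X.d1 k) = 0 := by rw [← e0, eps_d]
  rw [e1, zero_smul, sub_zero] at h1
  rw [e1, zero_smul, add_zero] at h2
  have h3 := hwd y (Pi.single k 1) (by rw [h1, e0])
  rw [pw_single] at h3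
  change pw π (X.d1 k) w = v k
  rw [h2, h3]

end

end Pool.Agent.Q123.RC
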